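import Pool.Agent.Helper99.BQ.Defs

/-!
MP_986e36_gt, block L4: multiplication of a Lie group in the chart at `1`.
-/

open scoped Manifold ContDiff Quaternion ENNReal Topology
open Bundle Set Metric

noncomputable section

namespace Helper99.BQ

/-- calculus lemma: a `C²` map `f` with `f (x, 0) = x` and `f (0, y) = y` is close to `x + y` -/
private theorem L4_calc {E : Type*} [NormedAddCommGroup E] [NormedSpace ℝ E]
    {f : E × E → E} (hf : ContDiffAt ℝ 2 f 0) (h1 : ∀ᶠ x in 𝓝 (0 : E), f (x, 0) = x)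
    (h2 : ∀ᶠ y in 𝓝 (0 : E), f (0, y) = y) :
    ∃ (C δ : ℝ), 0 ≤ C ∧ 0 < δ ∧ ∀ x y x' y', ‖x‖ < δ → ‖y‖ < δ → ‖x'‖ < δ → ‖y'‖ < δ →
        ‖f (x, y) - f (x', y') - (x - x') - (y - y')‖ ≤
          C * (‖x‖ + ‖y‖ + ‖x'‖ + ‖y'‖) * (‖x - x'‖ + ‖y - y'‖) := by
  -- the derivative at `0`
  have hdiff : DifferentiableAt ℝ f 0 := hf.differentiableAt (by norm_num)
  have hd0 : fderiv ℝ f 0 = ContinuousLinearMap.fst ℝ E E + ContinuousLinearMap.snd ℝ E E := by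
    have e1 : HasFDerivAt (fun x : E => f (x, 0)) ((fderiv ℝ f 0).comp
        (ContinuousLinearMap.inl ℝ E E)) 0 := by
      have : HasFDerivAt f (fderiv ℝ f 0) (ContinuousLinearMap.inl ℝ E E 0) := by
        rw [map_zero]
        exact hdiff.hasFDerivAt
      exact this.comp (0 : E) (ContinuousLinearMap.inl ℝ E E).hasFDerivAt
    have e1' : HasFDerivAt (fun x : E => f (x, 0)) (ContinuousLinearMap.id ℝ E) 0 :=
      (hasFDerivAt_id (0 : E)).congr_of_eventuallyEq (h1.mono fun x hx => by simpa using hx)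
    have e2 : HasFDerivAt (fun y : E => f (0, y)) ((fderiv ℝ f 0).comp
        (ContinuousLinearMap.inr ℝ E E)) 0 := by
      have : HasFDerivAt f (fderiv ℝ f 0) (ContinuousLinearMap.inr ℝ E E 0) := by
        rw [map_zero]
        exact hdiff.hasFDerivAt
      exact this.comp (0 : E) (ContinuousLinearMap.inr ℝ E E).hasFDerivAt
    have e2' : HasFDerivAt (fun y : E => f (0, y)) (ContinuousLinearMap.id ℝ E) 0 :=
      (hasFDerivAt_id (0 : E)).congr_of_eventuallyEq (h2.mono fun x hx => by simpa using hx)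
    have k1 := e1.unique e1'
    have k2 := e2.unique e2'
    ext1
    · rw [k1]; ext x; simp
    · rw [k2]; ext x; simp
  -- the derivative is Lipschitz near `0`
  have hfd : ContDiffAt ℝ 1 (fderiv ℝ f) 0 := hf.fderiv_right (by norm_num)
  obtain ⟨K, t, ht, hK⟩ := hfd.exists_lipschitzOnWith
  have hdn : ∀ᶠ p in 𝓝 (0 : E × E), DifferentiableAt ℝ f p :=
    (hf.eventually (by simp)).mono fun p hp => hp.differentiableAt (by norm_num)
  obtain ⟨δ, hδ, hball⟩ := Metric.mem_nhds_iff.mp (Filter.inter_mem ht hdn)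
  have h0t : (0 : E × E) ∈ t := mem_of_mem_nhds ht
  refine ⟨K, δ, K.coe_nonneg, hδ, ?_⟩
  intro x y x' y' hx hy hx' hy'
  set g : E × E → E := fun p => f p - (p.1 + p.2) with hg
  set r : ℝ := max ‖((x, y) : E × E)‖ ‖((x', y') : E × E)‖ with hr
  have hrδ : r < δ := by
    rw [hr, max_lt_iff, Prod.norm_def, Prod.norm_def]
    exact ⟨max_lt hx hy, max_lt hx' hy'⟩
  have hconv : Convex ℝ (closedBall (0 : E × E) r) := convex_closedBall 0 r
  have hgd : ∀ p ∈ closedBall (0 : E × E) r, HasFDerivWithinAt g (fderiv ℝ f p -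
      (ContinuousLinearMap.fst ℝ E E + ContinuousLinearMap.snd ℝ E E)) (closedBall 0 r) p := by
    intro p hp
    have hp' : p ∈ ball (0 : E × E) δ := closedBall_subset_ball hrδ hp
    have h3 : DifferentiableAt ℝ f p := (hball hp').2
    exact (h3.hasFDerivAt.sub ((ContinuousLinearMap.fst ℝ E E +
      ContinuousLinearMap.snd ℝ E E).hasFDerivAt)).hasFDerivWithinAt
  have hbound : ∀ p ∈ closedBall (0 : E × E) r, ‖fderiv ℝ f p -
      (ContinuousLinearMap.fst ℝ E E + ContinuousLinearMap.snd ℝ E E)‖ ≤ K * r := by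
    intro p hp
    have hp' : p ∈ ball (0 : E × E) δ := closedBall_subset_ball hrδ hp
    rw [← hd0, ← dist_eq_norm]
    have h3 := hK.dist_le_mul p (hball hp').1 0 h0t
    refine h3.trans ?_
    gcongr
    exact mem_closedBall.mp hp
  have hin : ((x, y) : E × E) ∈ closedBall (0 : E × E) r := by
    rw [mem_closedBall, dist_zero_right]; exact le_max_left _ _
  have hin' : ((x', y') : E × E) ∈ closedBall (0 : E × E) r := by
    rw [mem_closedBall, dist_zero_right]; exact le_max_right _ _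
  have hmain := hconv.norm_image_sub_le_of_norm_hasFDerivWithin_le hgd hbound hin' hin
  have e1 : f (x, y) - f (x', y') - (x - x') - (y - y') = g (x, y) - g (x', y') := by
    simp only [hg]
    abel
  rw [e1]
  refine hmain.trans ?_
  have h4 : r ≤ ‖x‖ + ‖y‖ + ‖x'‖ + ‖y'‖ := by
    have := norm_nonneg x
    have := norm_nonneg y
    have := norm_nonneg x'
    have := norm_nonneg y'
    rw [hr, Prod.norm_def, Prod.norm_def]
    refine max_le (max_le ?_ ?_) (max_le ?_ ?_) <;> simp only <;> linarith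
  have h5 : ‖((x, y) : E × E) - (x', y')‖ ≤ ‖x - x'‖ + ‖y - y'‖ := by
    rw [Prod.mk_sub_mk, Prod.norm_def]
    have := norm_nonneg (x - x')
    have := norm_nonneg (y - y')
    refine max_le ?_ ?_ <;> simp only <;> linarith
  have h6 : 0 ≤ ‖x‖ + ‖y‖ + ‖x'‖ + ‖y'‖ := by positivity
  gcongr

section G
variable {n : ℕ} {G : Type*} [Group G] [EMetricSpace G]
  [ChartedSpace (EuclideanSpace ℝ (Fin n)) G] [LieGroup (𝓡 n) ∞ G]


/-- L4: multiplication in the chart at `1` -/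
theorem mul_chart :
    ∃ (C δ : ℝ), 0 ≤ C ∧ 0 < δ ∧
      let φ := extChartAt (𝓡 n) (1 : G)
      let ψ : EuclideanSpace ℝ (Fin n) → G := fun v => φ.symm (φ 1 + v)
      let μ : EuclideanSpace ℝ (Fin n) → EuclideanSpace ℝ (Fin n) → EuclideanSpace ℝ (Fin n) :=
        fun x y => φ (ψ x * ψ y) - φ 1
      ball (φ 1) δ ⊆ φ.target ∧
      (∀ x y, ‖x‖ < δ → ‖y‖ < δ → ψ x * ψ y = ψ (μ x y)) ∧
      ∀ x y x' y', ‖x‖ < δ → ‖y‖ < δ → ‖x'‖ < δ → ‖y'‖ < δ →
        ‖μ x y - μ x' y' - (x - x') - (y - y')‖ ≤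
          C * (‖x‖ + ‖y‖ + ‖x'‖ + ‖y'‖) * (‖x - x'‖ + ‖y - y'‖) := by
  have : IsManifold (𝓡 n) ∞ G := inferInstance
  set φ := extChartAt (𝓡 n) (1 : G) with hφ
  set ψ : (EuclideanSpace ℝ (Fin n)) → G := fun v => φ.symm (φ 1 + v) with hψ
  have htarget : φ.target ∈ 𝓝 (φ 1) := extChartAt_target_mem_nhds (I := 𝓡 n) (1 : G)
  have hψ0 : ψ 0 = 1 := by
    simp only [hψ, add_zero]
    exact extChartAt_to_inv (I := 𝓡 n) (1 : G)
  have hψsm : ContMDiffAt 𝓘(ℝ, (EuclideanSpace ℝ (Fin n))) (𝓡 n) ∞ ψ 0 := by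
    have h1 : ContMDiffAt 𝓘(ℝ, (EuclideanSpace ℝ (Fin n))) (𝓡 n) ∞ φ.symm (φ 1 + 0) := by
      rw [add_zero]
      exact (contMDiffOn_extChartAt_symm (I := 𝓡 n) (n := ∞) (1 : G)).contMDiffAt htarget
    have h2 : ContMDiffAt 𝓘(ℝ, (EuclideanSpace ℝ (Fin n))) 𝓘(ℝ, (EuclideanSpace ℝ (Fin n))) ∞ (fun v : (EuclideanSpace ℝ (Fin n)) => φ 1 + v) 0 := by
      apply ContDiffAt.contMDiffAt
      fun_prop
    exact h1.comp (0 : (EuclideanSpace ℝ (Fin n))) h2
  have hmul : ContMDiffAt (𝓘(ℝ, (EuclideanSpace ℝ (Fin n)) × (EuclideanSpace ℝ (Fin n)))) (𝓡 n) ∞ (fun p : (EuclideanSpace ℝ (Fin n)) × (EuclideanSpace ℝ (Fin n)) => ψ p.1 * ψ p.2) 0 := by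
    have h1 : ContMDiffAt (𝓘(ℝ, (EuclideanSpace ℝ (Fin n)) × (EuclideanSpace ℝ (Fin n)))) (𝓡 n) ∞ (fun p : (EuclideanSpace ℝ (Fin n)) × (EuclideanSpace ℝ (Fin n)) => ψ p.1) 0 := by
      have h2 : ContMDiffAt 𝓘(ℝ, (EuclideanSpace ℝ (Fin n)) × (EuclideanSpace ℝ (Fin n))) 𝓘(ℝ, (EuclideanSpace ℝ (Fin n))) ∞ (fun p : (EuclideanSpace ℝ (Fin n)) × (EuclideanSpace ℝ (Fin n)) => p.1) 0 := by
        apply ContDiffAt.contMDiffAt
        fun_prop
      exact ContMDiffAt.comp (0 : (EuclideanSpace ℝ (Fin n)) × (EuclideanSpace ℝ (Fin n))) (g := ψ) hψsm h2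
    have h1' : ContMDiffAt (𝓘(ℝ, (EuclideanSpace ℝ (Fin n)) × (EuclideanSpace ℝ (Fin n)))) (𝓡 n) ∞ (fun p : (EuclideanSpace ℝ (Fin n)) × (EuclideanSpace ℝ (Fin n)) => ψ p.2) 0 := by
      have h2 : ContMDiffAt 𝓘(ℝ, (EuclideanSpace ℝ (Fin n)) × (EuclideanSpace ℝ (Fin n))) 𝓘(ℝ, (EuclideanSpace ℝ (Fin n))) ∞ (fun p : (EuclideanSpace ℝ (Fin n)) × (EuclideanSpace ℝ (Fin n)) => p.2) 0 := by
        apply ContDiffAt.contMDiffAt
        fun_prop
      exact ContMDiffAt.comp (0 : (EuclideanSpace ℝ (Fin n)) × (EuclideanSpace ℝ (Fin n))) (g := ψ) hψsm h2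
    exact h1.mul h1'
  have hval : ψ (0 : (EuclideanSpace ℝ (Fin n)) × (EuclideanSpace ℝ (Fin n))).1 * ψ (0 : (EuclideanSpace ℝ (Fin n)) × (EuclideanSpace ℝ (Fin n))).2 = 1 := by
    simp only [Prod.fst_zero, Prod.snd_zero, hψ0, mul_one]
  set f : (EuclideanSpace ℝ (Fin n)) × (EuclideanSpace ℝ (Fin n)) → (EuclideanSpace ℝ (Fin n)) := fun p => φ (ψ p.1 * ψ p.2) - φ 1 with hf
  have hfsm : ContDiffAt ℝ ∞ f 0 := by
    have h1 : ContMDiffAt (𝓡 n) 𝓘(ℝ, (EuclideanSpace ℝ (Fin n))) ∞ φ (ψ (0 : (EuclideanSpace ℝ (Fin n)) × (EuclideanSpace ℝ (Fin n))).1 * ψ (0 : (EuclideanSpace ℝ (Fin n)) × (EuclideanSpace ℝ (Fin n))).2) := by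
      rw [hval]
      exact contMDiffAt_extChartAt
    have h2 : ContMDiffAt 𝓘(ℝ, (EuclideanSpace ℝ (Fin n)) × (EuclideanSpace ℝ (Fin n))) 𝓘(ℝ, (EuclideanSpace ℝ (Fin n))) ∞ (fun p : (EuclideanSpace ℝ (Fin n)) × (EuclideanSpace ℝ (Fin n)) => φ (ψ p.1 * ψ p.2)) 0 :=
      ContMDiffAt.comp (0 : (EuclideanSpace ℝ (Fin n)) × (EuclideanSpace ℝ (Fin n))) (g := φ) h1 hmul
    have h3 : ContDiffAt ℝ ∞ (fun p : (EuclideanSpace ℝ (Fin n)) × (EuclideanSpace ℝ (Fin n)) => φ (ψ p.1 * ψ p.2)) 0 :=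
      contMDiffAt_iff_contDiffAt.mp h2
    exact h3.sub contDiffAt_const
  have htend : Filter.Tendsto (fun v : (EuclideanSpace ℝ (Fin n)) => φ 1 + v) (𝓝 0) (𝓝 (φ 1)) := by
    have : Continuous (fun v : (EuclideanSpace ℝ (Fin n)) => φ 1 + v) := by fun_prop
    simpa using this.tendsto 0
  have hφψ : ∀ᶠ x in 𝓝 (0 : (EuclideanSpace ℝ (Fin n))), φ (ψ x) - φ 1 = x := by
    filter_upwards [htend htarget] with x hx
    simp only [hψ]
    rw [φ.right_inv hx]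
    exact add_sub_cancel_left _ _
  have hf1 : ∀ᶠ x in 𝓝 (0 : (EuclideanSpace ℝ (Fin n))), f (x, 0) = x := by
    filter_upwards [hφψ] with x hx
    simp only [hf, hψ0, mul_one]
    exact hx
  have hf2 : ∀ᶠ x in 𝓝 (0 : (EuclideanSpace ℝ (Fin n))), f (0, x) = x := by
    filter_upwards [hφψ] with x hx
    simp only [hf, hψ0, one_mul]
    exact hx
  obtain ⟨C, δ, hC, hδ, hmain⟩ := L4_calc (f := f) (hfsm.of_le (WithTop.coe_le_coe.mpr le_top)) hf1 hf2
  have hsource : ∀ᶠ p in 𝓝 (0 : (EuclideanSpace ℝ (Fin n)) × (EuclideanSpace ℝ (Fin n))), ψ p.1 * ψ p.2 ∈ φ.source := by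
    have h1 : φ.source ∈ 𝓝 (ψ (0 : (EuclideanSpace ℝ (Fin n)) × (EuclideanSpace ℝ (Fin n))).1 * ψ (0 : (EuclideanSpace ℝ (Fin n)) × (EuclideanSpace ℝ (Fin n))).2) := by
      rw [hval]
      exact extChartAt_source_mem_nhds (I := 𝓡 n) (1 : G)
    exact hmul.continuousAt h1
  obtain ⟨δ2, hδ2, hball2⟩ := Metric.mem_nhds_iff.mp hsource
  obtain ⟨δ3, hδ3, hball3⟩ := Metric.mem_nhds_iff.mp htarget
  refine ⟨C, min δ (min δ2 δ3), hC, by positivity, ?_, ?_, ?_⟩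
  · exact (ball_subset_ball ((min_le_right _ _).trans (min_le_right _ _))).trans hball3
  · intro x y hx hy
    have h1 : ψ x * ψ y ∈ φ.source := by
      refine hball2 (a := ((x, y) : (EuclideanSpace ℝ (Fin n)) × (EuclideanSpace ℝ (Fin n)))) ?_
      rw [mem_ball_zero_iff, Prod.norm_def]
      exact max_lt (hx.trans_le ((min_le_right _ _).trans (min_le_left _ _)))
        (hy.trans_le ((min_le_right _ _).trans (min_le_left _ _)))
    show ψ x * ψ y = φ.symm (φ 1 + (φ (ψ x * ψ y) - φ 1))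
    rw [add_sub_cancel, φ.left_inv h1]
  · intro x y x' y' hx hy hx' hy'
    exact hmain x y x' y' (hx.trans_le (min_le_left _ _)) (hy.trans_le (min_le_left _ _))
      (hx'.trans_le (min_le_left _ _)) (hy'.trans_le (min_le_left _ _))

end G

end Helper99.BQ
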