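import Pool.Agent.Helper99.BQ.Defs
import Pool.Agent.Helper72.BQ.L4

/-!
MP_986e36_gt, block L5: local chart of a Lie group with left invariant metric.
-/

open scoped Manifold ContDiff Quaternion ENNReal Topology
open Bundle Set Metric

noncomputable section

namespace Helper99.BQ

section G
variable {n : ℕ} {G : Type*} [Group G] [EMetricSpace G]
  [ChartedSpace (EuclideanSpace ℝ (Fin n)) G] [LieGroup (𝓡 n) ∞ G]
  [RiemannianBundle (fun x : G => TangentSpace (𝓡 n) x)]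


/-- an orthonormal frame of the tangent space at `1`, as a linear equivalence of `ℝⁿ` -/
private theorem exists_frame (n : ℕ) (G : Type*) [Group G] [EMetricSpace G]
    [ChartedSpace (EuclideanSpace ℝ (Fin n)) G] [LieGroup (𝓡 n) ∞ G]
    [RiemannianBundle (fun x : G => TangentSpace (𝓡 n) x)] :
    ∃ A : EuclideanSpace ℝ (Fin n) ≃L[ℝ] EuclideanSpace ℝ (Fin n),
      ∀ v, ‖(show TangentSpace (𝓡 n) (1 : G) from A v)‖ = ‖v‖ := by
  have hfd : FiniteDimensional ℝ (TangentSpace (𝓡 n) (1 : G)) :=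
    inferInstanceAs (FiniteDimensional ℝ (EuclideanSpace ℝ (Fin n)))
  have hfr : Module.finrank ℝ (TangentSpace (𝓡 n) (1 : G)) = n := by
    have : Module.finrank ℝ (EuclideanSpace ℝ (Fin n)) = n := by simp
    exact this
  let b := (stdOrthonormalBasis ℝ (TangentSpace (𝓡 n) (1 : G))).reindex (finCongr hfr)
  let T : EuclideanSpace ℝ (Fin n) ≃ₗᵢ[ℝ] TangentSpace (𝓡 n) (1 : G) := b.repr.symm
  let A0 : EuclideanSpace ℝ (Fin n) ≃ₗ[ℝ] EuclideanSpace ℝ (Fin n) :=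
    { toFun := fun v => T v
      map_add' := fun x y => T.map_add x y
      map_smul' := fun c x => T.map_smul c x
      invFun := fun v => T.symm v
      left_inv := fun x => T.symm_apply_apply x
      right_inv := fun x => T.apply_symm_apply x }
  exact ⟨A0.toContinuousLinearEquiv, fun v => T.norm_map v⟩

/-- L5, the conclusion of L1 (`edist_chart (1 : G)`) being a hypothesis. -/
theorem exists_chart_of
    (hL1 : ∀ ε : ℝ, 0 < ε → ∃ U ∈ 𝓝 (1 : G),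
      U ⊆ (chartAt (EuclideanSpace ℝ (Fin n)) (1 : G)).source ∧ ∀ y ∈ U, ∀ z ∈ U,
      ENNReal.ofReal ((1 - ε) * ‖(show TangentSpace (𝓡 n) (1 : G) from
        (extChartAt (𝓡 n) (1 : G) y - extChartAt (𝓡 n) (1 : G) z :
          EuclideanSpace ℝ (Fin n)))‖) ≤ edist y z ∧
      edist y z ≤ ENNReal.ofReal ((1 + ε) * ‖(show TangentSpace (𝓡 n) (1 : G) from
        (extChartAt (𝓡 n) (1 : G) y - extChartAt (𝓡 n) (1 : G) z :
          EuclideanSpace ℝ (Fin n)))‖)) :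
    ∃ (ψ : EuclideanSpace ℝ (Fin n) → G)
      (μ : EuclideanSpace ℝ (Fin n) → EuclideanSpace ℝ (Fin n) → EuclideanSpace ℝ (Fin n))
      (C δ : ℝ), 0 ≤ C ∧ 0 < δ ∧ ψ 0 = 1 ∧ (∀ r > 0, ψ '' ball 0 r ∈ 𝓝 (1 : G)) ∧
      (∀ ε > 0, ∃ r > 0, ∀ x y, ‖x‖ < r → ‖y‖ < r →
        ENNReal.ofReal ((1 - ε) * ‖x - y‖) ≤ edist (ψ x) (ψ y) ∧
        edist (ψ x) (ψ y) ≤ ENNReal.ofReal ((1 + ε) * ‖x - y‖)) ∧
      (∀ x y, ‖x‖ < δ → ‖y‖ < δ → ψ x * ψ y = ψ (μ x y)) ∧ μ 0 0 = 0 ∧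
      ∀ x y x' y', ‖x‖ < δ → ‖y‖ < δ → ‖x'‖ < δ → ‖y'‖ < δ →
        ‖μ x y - μ x' y' - (x - x') - (y - y')‖ ≤
          C * (‖x‖ + ‖y‖ + ‖x'‖ + ‖y'‖) * (‖x - x'‖ + ‖y - y'‖) := by
  have : IsManifold (𝓡 n) ∞ G := inferInstance
  obtain ⟨A, hA⟩ := exists_frame n G
  obtain ⟨C, δ, hC, hδ, hball, hmul, hlip⟩ := mul_chart (n := n) (G := G)
  set φ := extChartAt (𝓡 n) (1 : G) with hφ
  have htarget : φ.target ∈ 𝓝 (φ 1) := extChartAt_target_mem_nhds (I := 𝓡 n) (1 : G)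
  have hsource : φ.source ∈ 𝓝 (1 : G) := extChartAt_source_mem_nhds (I := 𝓡 n) (1 : G)
  set ψ0 : (EuclideanSpace ℝ (Fin n)) → G := fun v => φ.symm (φ 1 + v) with hψ0def
  set μ0 : (EuclideanSpace ℝ (Fin n)) → (EuclideanSpace ℝ (Fin n)) → (EuclideanSpace ℝ (Fin n)) := fun x y => φ (ψ0 x * ψ0 y) - φ 1 with hμ0def
  have hψ0 : ψ0 0 = 1 := by
    simp only [hψ0def, add_zero]
    exact extChartAt_to_inv (I := 𝓡 n) (1 : G)
  set a : ℝ := ‖(A : (EuclideanSpace ℝ (Fin n)) →L[ℝ] (EuclideanSpace ℝ (Fin n)))‖ + 1 with ha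
  have ha0 : 0 < a := by positivity
  have hAle : ∀ x, ‖A x‖ ≤ a * ‖x‖ := fun x =>
    ((A : (EuclideanSpace ℝ (Fin n)) →L[ℝ] (EuclideanSpace ℝ (Fin n))).le_opNorm x).trans
      (mul_le_mul_of_nonneg_right (by rw [ha]; linarith) (norm_nonneg _))
  have hAsle : ∀ x, ‖A.symm x‖ ≤ ‖(A.symm : (EuclideanSpace ℝ (Fin n)) →L[ℝ] (EuclideanSpace ℝ (Fin n)))‖ * ‖x‖ := fun x =>
    (A.symm : (EuclideanSpace ℝ (Fin n)) →L[ℝ] (EuclideanSpace ℝ (Fin n))).le_opNorm x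
  have hAδ : ∀ x, ‖x‖ < δ / a → ‖A x‖ < δ := by
    intro x hx
    rw [lt_div_iff₀ ha0] at hx
    exact (hAle x).trans_lt (by linarith)
  refine ⟨fun v => ψ0 (A v), fun x y => A.symm (μ0 (A x) (A y)),
    ‖(A.symm : (EuclideanSpace ℝ (Fin n)) →L[ℝ] (EuclideanSpace ℝ (Fin n)))‖ * C * a * a, δ / a, by positivity, by positivity, ?_, ?_, ?_, ?_, ?_, ?_⟩
  · simp only [map_zero, hψ0]
  · intro r hr
    have hcont : Filter.Tendsto (fun g : G => A.symm (φ g - φ 1)) (𝓝 1) (𝓝 0) := by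
      have h1 : ContinuousAt φ (1 : G) := continuousAt_extChartAt (I := 𝓡 n) (1 : G)
      have h2 : ContinuousAt (fun g : G => A.symm (φ g - φ 1)) 1 :=
        A.symm.continuous.continuousAt.comp (h1.sub continuousAt_const)
      have h3 := h2.tendsto
      simpa using h3
    filter_upwards [hcont (ball_mem_nhds 0 hr), hsource] with g hg hg2
    refine ⟨A.symm (φ g - φ 1), hg, ?_⟩
    simp only [ContinuousLinearEquiv.apply_symm_apply, hψ0def, add_sub_cancel]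
    exact φ.left_inv hg2
  · intro ε hε
    obtain ⟨U, hU, hUs, hmet⟩ := hL1 ε hε
    have hψcont : Filter.Tendsto (fun v : (EuclideanSpace ℝ (Fin n)) => ψ0 (A v)) (𝓝 0) (𝓝 1) := by
      have h1 : ContinuousAt φ.symm (φ 1 + A (0 : (EuclideanSpace ℝ (Fin n)))) := by
        rw [map_zero, add_zero]
        exact continuousAt_extChartAt_symm (I := 𝓡 n) (1 : G)
      have h2 : ContinuousAt (fun v : (EuclideanSpace ℝ (Fin n)) => φ 1 + A v) 0 := by fun_prop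
      have h3 : ContinuousAt (fun v : (EuclideanSpace ℝ (Fin n)) => φ.symm (φ 1 + A v)) 0 :=
        ContinuousAt.comp (g := φ.symm) h1 h2
      have h4 := h3.tendsto
      have h5 : φ.symm (φ 1 + A (0 : (EuclideanSpace ℝ (Fin n)))) = 1 := by
        have := hψ0
        simp only [hψ0def] at this
        rw [map_zero, this]
      rw [h5] at h4
      exact h4
    have hT : Filter.Tendsto (fun v : (EuclideanSpace ℝ (Fin n)) => φ 1 + A v) (𝓝 0) (𝓝 (φ 1)) := by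
      have h2 : ContinuousAt (fun v : (EuclideanSpace ℝ (Fin n)) => φ 1 + A v) 0 := by fun_prop
      have h3 := h2.tendsto
      simpa using h3
    obtain ⟨r, hr, hball2⟩ := Metric.mem_nhds_iff.mp
      (Filter.inter_mem (hψcont hU) (hT htarget))
    refine ⟨r, hr, ?_⟩
    intro x y hx hy
    have hx' := hball2 (mem_ball_zero_iff.mpr hx)
    have hy' := hball2 (mem_ball_zero_iff.mpr hy)
    have h1 := hmet _ hx'.1 _ hy'.1
    have h2 : (extChartAt (𝓡 n) (1 : G) (ψ0 (A x)) - extChartAt (𝓡 n) (1 : G) (ψ0 (A y)) : (EuclideanSpace ℝ (Fin n)))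
        = A (x - y) := by
      have e1 : φ (ψ0 (A x)) = φ 1 + A x := φ.right_inv hx'.2
      have e2 : φ (ψ0 (A y)) = φ 1 + A y := φ.right_inv hy'.2
      show φ (ψ0 (A x)) - φ (ψ0 (A y)) = A (x - y)
      rw [e1, e2, map_sub]
      exact add_sub_add_left_eq_sub _ _ _
    rw [h2, hA] at h1
    exact h1
  · intro x y hx hy
    have h1 := hmul (A x) (A y) (hAδ x hx) (hAδ y hy)
    simp only [ContinuousLinearEquiv.apply_symm_apply]
    exact h1
  · simp only [map_zero]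
    have h1 : μ0 0 0 = 0 := by
      simp only [hμ0def, hψ0, mul_one, sub_self]
    rw [h1, map_zero]
  · intro x y x' y' hx hy hx' hy'
    have h1 := hlip (A x) (A y) (A x') (A y') (hAδ x hx) (hAδ y hy) (hAδ x' hx') (hAδ y' hy')
    have h2 : A.symm (μ0 (A x) (A y)) - A.symm (μ0 (A x') (A y')) - (x - x') - (y - y') =
        A.symm (μ0 (A x) (A y) - μ0 (A x') (A y') - (A x - A x') - (A y - A y')) := by
      simp only [map_sub, ContinuousLinearEquiv.symm_apply_apply]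
    show ‖A.symm (μ0 (A x) (A y)) - A.symm (μ0 (A x') (A y')) - (x - x') - (y - y')‖ ≤ _
    rw [h2]
    have h3 : ‖A x‖ + ‖A y‖ + ‖A x'‖ + ‖A y'‖ ≤ a * (‖x‖ + ‖y‖ + ‖x'‖ + ‖y'‖) := by
      linarith [hAle x, hAle y, hAle x', hAle y']
    have h4 : ‖A x - A x'‖ + ‖A y - A y'‖ ≤ a * (‖x - x'‖ + ‖y - y'‖) := by
      rw [← map_sub, ← map_sub]
      linarith [hAle (x - x'), hAle (y - y')]
    calc ‖A.symm (μ0 (A x) (A y) - μ0 (A x') (A y') - (A x - A x') - (A y - A y'))‖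
        ≤ ‖(A.symm : (EuclideanSpace ℝ (Fin n)) →L[ℝ] (EuclideanSpace ℝ (Fin n)))‖ * ‖μ0 (A x) (A y) - μ0 (A x') (A y') - (A x - A x') -
          (A y - A y')‖ := hAsle _
      _ ≤ ‖(A.symm : (EuclideanSpace ℝ (Fin n)) →L[ℝ] (EuclideanSpace ℝ (Fin n)))‖ * (C * (‖A x‖ + ‖A y‖ + ‖A x'‖ + ‖A y'‖) *
          (‖A x - A x'‖ + ‖A y - A y'‖)) :=
          mul_le_mul_of_nonneg_left h1 (norm_nonneg _)
      _ ≤ ‖(A.symm : (EuclideanSpace ℝ (Fin n)) →L[ℝ] (EuclideanSpace ℝ (Fin n)))‖ * (C * (a * (‖x‖ + ‖y‖ + ‖x'‖ + ‖y'‖)) *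
          (a * (‖x - x'‖ + ‖y - y'‖))) := by gcongr
      _ = _ := by ring

end G

end Helper99.BQ
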